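import Pool.Agent.H792.KG.Fin

/-!
# Closed, and locally homogeneous, Landsberg manifolds

* Every smooth Finsler metric (reversibility is not assumed) with vanishing Landsberg curvature on
  a three-dimensional manifold which is closed, or whose local isometries are cocompact (for
  instance a locally homogeneous metric), is a Berwald metric.
* The same holds in every dimension `n ≥ 3` if on each tangent space the curvature fields span at
  most `n - 2` dimensions modulo linear fields, or vanish at a common vector `y ≠ 0`, or the Berwald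
  curvature vanishes. The first two conditions hold if the norm has at most `n - 2` infinitesimal
  isometries modulo linear ones, or if its infinitesimal isometries have a common zero.
* Under each of the first two conditions the curvature is linear in `y`, for every Landsberg metric.
* Local results: in dimension three (and for tame norms in dimension `n ≥ 3`), at each point the
  curvature or the Berwald curvature vanishes; a Landsberg metric of dimension three with a
  compatible linear connection (of arbitrary torsion) is a Berwald metric, and is Riemannian on a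
  connected domain if one tangent norm has two non-proportional infinitesimal isometries.
-/

set_option autoImplicit false

open scoped Manifold ContDiff Matrix

namespace Pool.Agent.Results.MP_9f67e3_gt.CocompactThreeManifolds

open Pool.Agent.R774.BW Pool.Agent.H792.Gen Pool.Agent.H792.KF Pool.Agent.H792.KG

theorem result : CocompactThree ∧ (∀ n : ℕ, 3 ≤ n → CocompactSmall n) ∧
    (∀ n : ℕ, 3 ≤ n → ∀ (U : Set (Fin n → ℝ)) (F : (Fin n → ℝ) → (Fin n → ℝ) → ℝ)
      (G : (Fin n → ℝ) → (Fin n → ℝ) → (Fin n → ℝ)), LandsbergOn U F G → ∀ x ∈ U,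
      (Tame F x → FewNonlinear F x) ∧ (FewNonlinear F x → SmallSpan G x) ∧
      (CommonZero F x → FlatDirection G x) ∧
      (SmallSpan G x ∨ FlatDirection G x → LinearCurvature G x)) ∧
    (∀ n : ℕ, 3 ≤ n → ∀ (U : Set (Fin n → ℝ)) (F : (Fin n → ℝ) → (Fin n → ℝ) → ℝ)
      (G : (Fin n → ℝ) → (Fin n → ℝ) → (Fin n → ℝ)), LandsbergOn U F G →
      (∀ x ∈ U, Tame F x) → ∀ x ∈ U, FlatAt G x ∨ BerwaldAt G x) ∧
    (∀ (U : Set (Fin 3 → ℝ)) (F : (Fin 3 → ℝ) → (Fin 3 → ℝ) → ℝ)
      (G : (Fin 3 → ℝ) → (Fin 3 → ℝ) → (Fin 3 → ℝ)), LandsbergOn U F G →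
      (∀ x ∈ U, FlatAt G x ∨ BerwaldAt G x) ∧
      (∀ Γ, Compatible U F Γ → ∀ x ∈ U, BerwaldAt G x) ∧
      (IsPreconnected U → ∀ p ∈ U, ¬ Proportional F p → ∀ x ∈ U,
        ∃ A : Matrix (Fin 3) (Fin 3) ℝ, A.PosDef ∧ ∀ y, F x y = √(y ⬝ᵥ A *ᵥ y))) :=
  ⟨cocompact_three, fun _ hn => cocompact_small hn,
    fun _ hn _ _ _ ⟨hF, hG, hL⟩ _ hx => ⟨few_of_tame hn, small_of_few hF hG hL hx,
      flat_of_zero hF hG hL hx, fun h => linear_curvature (by omega) hF hG hx
        (lin_cases hF hG hL (by omega) hx h)⟩,
    fun _ hn _ _ _ ⟨hF, hG, hL⟩ h => local_tame hn hF hG hL h,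
    fun _ _ _ ⟨hF, hG, hL⟩ => ⟨local_three hF hG hL,
      fun Γ hΓ x hx y hy i j k l => compatible_three hF hG hL Γ hΓ x hx y hy i j k l,
      fun hU p hp h x hx => riemann_three hF hG hL hU p hp h x hx⟩⟩

end Pool.Agent.Results.MP_9f67e3_gt.CocompactThreeManifolds
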