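import Pool.Agent.H792.Gen.Final

/-!
# Landsberg metrics with generic Cartan torsion are Berwald metrics, in dimension at least four

Let `n = m + 1 ≥ 4`. Call a cubic form `c` on `ℝ^m` rigid if the only quartic form `b` with

`Σ_i (c_api b_eqri - c_ari b_eqpi - c_qpi b_eari + c_qri b_eapi) = 0`   for all `e, a, q, p, r`

is `b = 0`.

* The rigid cubic forms are an open and dense subset of the space of all cubic forms on `ℝ^m`.
* Let `F` be a Landsberg metric on an open subset of `ℝ^n`, let `y ≠ 0` be a tangent vector at `x`,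
  and let `f_1, …, f_m` be a `g_y`-orthonormal basis of the `g_y`-orthogonal complement of `y`. If
  the Cartan torsion of `F` at `(x,y)`, which is the cubic form `C_y(f_a,f_b,f_c)`, is rigid, then
  the Berwald curvature of `F` vanishes at `(x,y)`.

So the Landsberg unicorn conjecture holds pointwise for a generic Cartan torsion, and a unicorn of
dimension at least four has a degenerate Cartan torsion at each point of `TM∖0` at which it is not a
Berwald metric.
-/

set_option autoImplicit false

namespace Pool.Agent.Results.MP_9f67e3_gt.GenericCartan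

open Pool.Agent.R774.BW Pool.Agent.H792.Gen

theorem result : ∀ m : ℕ, 3 ≤ m →
    IsOpen {c : Fin m → Fin m → Fin m → ℝ | Rigid c} ∧
    (∀ c : Fin m → Fin m → Fin m → ℝ, IsCub c → c ∈ closure {c | IsCub c ∧ Rigid c}) ∧
    ∀ (U : Set (Fin (m + 1) → ℝ)) (F : (Fin (m + 1) → ℝ) → (Fin (m + 1) → ℝ) → ℝ)
      (G : (Fin (m + 1) → ℝ) → (Fin (m + 1) → ℝ) → (Fin (m + 1) → ℝ)),
      IsFinsler U F → IsSpray U F G → IsLandsberg U F G →
      ∀ x ∈ U, ∀ y : Fin (m + 1) → ℝ, y ≠ 0 → ∀ f : Fin m → Fin (m + 1) → ℝ, Adapted F x y f →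
        Rigid (fun a b c => cform F x y (f a) (f b) (f c)) →
        ∀ i j k l, berwald G x y i j k l = 0 :=
  fun _ hm => main hm

end Pool.Agent.Results.MP_9f67e3_gt.GenericCartan
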