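import Pool.Agent.H792.LF.One

/-!
# A Landsberg metric with one Euclidean tangent space is Riemannian, in dimension at least three

Let `U ⊆ ℝ^n`, `n ≥ 3`, be open and connected and let `F` be a smooth Finsler metric on `U`
(reversibility is not assumed) whose Landsberg curvature vanishes identically. If the norm
`F(p, ·)` of one single tangent space is a Euclidean norm, then `F` is a Riemannian metric on `U`.

The proof transports the curvature tensor of the Hessian metrics of the tangent norms, by a
maximum principle on the indicatrices, and uses the solution of Laugwitz' problem for norms which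
are not assumed to be symmetric (in the library, `S13443`).
-/

set_option autoImplicit false

open Matrix

namespace Pool.Agent.Results.MP_9f67e3_gt.OneEuclideanFibre

open Pool.Agent.R774.BW Pool.Agent.H792.Gen

theorem result : ∀ n : ℕ, 3 ≤ n → ∀ (U : Set (Fin n → ℝ))
    (F : (Fin n → ℝ) → (Fin n → ℝ) → ℝ) (G : (Fin n → ℝ) → (Fin n → ℝ) → (Fin n → ℝ)),
    IsFinsler U F → IsSpray U F G → IsLandsberg U F G → IsPreconnected U →
    ∀ p ∈ U, (∃ M : Matrix (Fin n) (Fin n) ℝ, ∀ y, F p y = √(y ⬝ᵥ M *ᵥ y)) →
    ∀ x ∈ U, ∃ M : Matrix (Fin n) (Fin n) ℝ, M.PosDef ∧ ∀ y, F x y = √(y ⬝ᵥ M *ᵥ y) :=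
  fun _ hn _ _ _ hF hG hL hU _ hp ⟨_, h⟩ _ hx => Pool.Agent.H792.LF.main hn hF hG hL hU hp h hx

end Pool.Agent.Results.MP_9f67e3_gt.OneEuclideanFibre
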