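import Pool.Agent.H792.Torus

/-!
# Unicorns on the two-torus, with prescribed Berwald locus

Let `B` be a smooth function of period one and `δ > 0`. There is a smooth Finsler metric `F` on the
plane which is invariant under the lattice `ℤ²`, hence a metric on the closed surface
`ℝ² / ℤ²`, such that

* the Landsberg curvature vanishes identically,
* the norm of the Cartan torsion is at most `δ`,
* the tangent norms at two points are the same whenever `B` has the same value at their second
  coordinates (so the metric is locally Minkowski where `B` is locally constant),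
* the Berwald curvature vanishes at a point `x` if and only if `B' (x 1) = 0`.

For every `B` which is not constant the metric is a unicorn on a closed surface. If `B` is
constant on an interval, the unicorn is a flat Minkowski product on an open annulus: unicorns do not
have the unique continuation property.
-/

set_option autoImplicit false

open scoped ContDiff

namespace Pool.Agent.Results.MP_9f67e3_gt.TorusUnicorn

open Pool.Agent.Y519.UN

theorem result :
    ∀ δ : ℝ, 0 < δ → ∀ B : ℝ → ℝ, ContDiff ℝ ∞ B → (∀ s, B (s + 1) = B s) →
      ∃ F : (Fin 2 → ℝ) → (Fin 2 → ℝ) → ℝ, IsFinsler F ∧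
        (∀ (x : Fin 2 → ℝ) (m : Fin 2 → ℤ) (y : Fin 2 → ℝ),
          F (fun i => x i + m i) y = F x y) ∧
        (∀ x y, y ≠ 0 → ∀ j k l, lan F x y j k l = 0) ∧
        (∀ x y, y ≠ 0 → ∀ u v w : Fin 2 → ℝ,
          F x y * |∑ i, ∑ j, ∑ k, cart F x y i j k * u i * v j * w k| ≤
            δ * (√(nsq F x y u) * √(nsq F x y v) * √(nsq F x y w))) ∧
        (∀ x x' y, B (x 1) = B (x' 1) → F x y = F x' y) ∧
        (∀ x, (∀ y, y ≠ 0 → ∀ i j k l, ber F x y i j k l = 0) ↔ deriv B (x 1) = 0) :=
  fun δ hδ B hB hp => Pool.Agent.H792.Torus.main δ hδ B hB hp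

end Pool.Agent.Results.MP_9f67e3_gt.TorusUnicorn
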